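import Pool.Agent.H63.PK.Targets

/-!
# pwk_modules row ALG (helper2): the algebra of chord diagrams
-/

set_option autoImplicit false

namespace Pool.Agent.H2.PK

open Pool.Agent.H59.LIN Pool.Agent.H13.LN Pool.Agent.H63.PK

/-- integral combinations of the values of a weight system on a relation vanish -/
theorem ws_rel {M : Type*} [AddCommGroup M] {d : ℕ} {W : List ℕ → M} (hW : WS d W)
    (x : GW d →₀ ℤ) (hx : Rel d x) : (x.sum fun l c => c • W l.1) = 0 := by
  have hadd : ∀ y z : GW d →₀ ℤ, ((y + z).sum fun l c => c • W l.1) =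
      (y.sum fun l c => c • W l.1) + z.sum fun l c => c • W l.1 := fun y z =>
    Finsupp.sum_add_index' (fun l => zero_smul ℤ _) (fun l a b => add_smul a b _)
  have hsub : ∀ y z : GW d →₀ ℤ, ((y - z).sum fun l c => c • W l.1) =
      (y.sum fun l c => c • W l.1) - z.sum fun l c => c • W l.1 := fun y z =>
    Finsupp.sum_sub_index (fun l a b => sub_smul a b _)
  have hsingle : ∀ l : GW d, ((Finsupp.single l (1 : ℤ)).sum fun l c => c • W l.1) = W l.1 := by
    intro l
    have h := Finsupp.sum_single_index (a := l) (b := (1 : ℤ))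
      (h := fun (l : GW d) (c : ℤ) => c • W l.1) (zero_smul ℤ _)
    rw [h, one_smul]
  cases hx with
  | relab l l' f hf hl =>
    rw [hsub, hsingle, hsingle, hl, hW.relab l.1 f l.2 hf, sub_self]
  | rot l l' a m hl hl' =>
    have h1 : Gw d (a :: m) := hl ▸ l.2
    rw [hsub, hsingle, hsingle, hl, hl', hW.rot a m h1, sub_self]
  | isol l A B a hl =>
    have h1 : Gw d (A ++ a :: a :: B) := hl ▸ l.2
    rw [hsingle, hl, hW.isol A B a h1]
  | four l₁ l₂ l₃ l₄ A B C a b h1 h2 h3 h4 =>
    have h0 : Gw d (A ++ a :: b :: (B ++ a :: C)) := h1 ▸ l₁.2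
    rw [hsub, hadd, hsub, hsingle, hsingle, hsingle, hsingle, h1, h2, h3, h4]
    exact hW.four A B C a b h0

theorem exists_bound (l : List ℕ) : ∃ N : ℕ, ∀ x ∈ l, x < N := by
  induction l with
  | nil => exact ⟨0, by simp⟩
  | cons a l ih =>
    obtain ⟨N, hN⟩ := ih
    refine ⟨max N (a + 1), ?_⟩
    intro x hx
    rcases List.mem_cons.1 hx with h | h
    · rw [h]; exact lt_of_lt_of_le (Nat.lt_succ_self a) (le_max_right _ _)
    · exact lt_of_lt_of_le (hN x h) (le_max_left _ _)

theorem smul_mk (R : Type) [CommRing R] (c : R) (p : MvPolynomial (Σ d : ℕ, GW d) R) :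
    c • (Ideal.Quotient.mk (Ideal.span {f : MvPolynomial (Σ d : ℕ, GW d) R | ARel R f}) p) =
      Ideal.Quotient.mk (Ideal.span {f : MvPolynomial (Σ d : ℕ, GW d) R | ARel R f})
        (MvPolynomial.C c * p) := by
  rw [← MvPolynomial.smul_eq_C_mul]
  rfl

/-- part (2) -/
theorem alg2 (R : Type) [CommRing R] (d : ℕ) (x : GW d →₀ ℤ) (hx : Rel d x) :
    (x.sum fun l c => (c : R) • cls R l) = 0 := by
  have h1 : (Ideal.Quotient.mk (Ideal.span {f : MvPolynomial (Σ d : ℕ, GW d) R | ARel R f})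
      (x.sum fun l c => MvPolynomial.C (c : R) * MvPolynomial.X ⟨d, l⟩)) = 0 :=
    Ideal.Quotient.eq_zero_iff_mem.2 (Ideal.subset_span (ARel.lin d x hx))
  rw [Finsupp.sum, map_sum] at h1
  rw [Finsupp.sum, ← h1]
  refine Finset.sum_congr rfl fun l _ => ?_
  rw [cls, smul_mk]

/-- part (3) -/
theorem alg3 (R : Type) [CommRing R] (a b d : ℕ) (l : GW a) (m : GW b) (n : GW d)
    (h : n.1 = l.1 ++ m.1) : cls R n = cls R l * cls R m := by
  have h1 : (Ideal.Quotient.mk (Ideal.span {f : MvPolynomial (Σ d : ℕ, GW d) R | ARel R f})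
      (MvPolynomial.X ⟨d, n⟩ - MvPolynomial.X ⟨a, l⟩ * MvPolynomial.X ⟨b, m⟩)) = 0 :=
    Ideal.Quotient.eq_zero_iff_mem.2 (Ideal.subset_span (ARel.mul a b d l m n h))
  rw [map_sub, map_mul] at h1
  exact sub_eq_zero.1 h1

/-- part (4) -/
theorem alg4 (R : Type) [CommRing R] (n : GW 0) : cls R n = 1 := by
  have h1 : (Ideal.Quotient.mk (Ideal.span {f : MvPolynomial (Σ d : ℕ, GW d) R | ARel R f})
      (MvPolynomial.X ⟨0, n⟩ - 1)) = 0 :=
    Ideal.Quotient.eq_zero_iff_mem.2 (Ideal.subset_span (ARel.one n))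
  rw [map_sub, map_one] at h1
  exact sub_eq_zero.1 h1

theorem gw_map {d : ℕ} {l : List ℕ} (hl : Gw d l) (f : ℕ → ℕ) (hf : Function.Injective f) :
    Gw d (l.map f) := by
  refine ⟨by rw [List.length_map]; exact hl.1, ?_⟩
  intro a ha
  obtain ⟨c, hc, rfl⟩ := List.mem_map.1 ha
  rw [List.count_map_of_injective l f hf]
  exact hl.2 c hc

theorem gw_append {a b : ℕ} {l m : List ℕ} (hl : Gw a l) (hm : Gw b m)
    (hd : ∀ x ∈ l, x ∉ m) : Gw (a + b) (l ++ m) := by
  refine ⟨by rw [List.length_append, hl.1, hm.1]; ring, ?_⟩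
  intro c hc
  rw [List.count_append]
  rcases List.mem_append.1 hc with h | h
  · rw [hl.2 c h, List.count_eq_zero_of_not_mem (hd c h)]
  · have h1 : c ∉ l := fun h2 => hd c h2 h
    rw [hm.2 c h, List.count_eq_zero_of_not_mem h1]

/-- the product of two classes is a class -/
theorem cls_mul (R : Type) [CommRing R] (a b : ℕ) (l : GW a) (m : GW b) :
    ∃ n : GW (a + b), cls R l * cls R m = cls R n := by
  obtain ⟨N, hN⟩ := exists_bound l.1
  have hinj : Function.Injective (fun x : ℕ => x + N) := add_left_injective N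
  set m2 : GW b := ⟨m.1.map (fun x => x + N), gw_map m.2 _ hinj⟩ with hm2
  have h1 : cls R m2 = cls R m := by
    have h2 := alg2 R b _ (Rel.relab m m2 (fun x => x + N) hinj.injOn rfl)
    rw [Finsupp.sum_sub_index (fun l a b => by push_cast; exact sub_smul _ _ _),
      Finsupp.sum_single_index (by rw [Int.cast_zero, zero_smul]),
      Finsupp.sum_single_index (by rw [Int.cast_zero, zero_smul]), Int.cast_one, one_smul,
      one_smul] at h2
    exact sub_eq_zero.1 h2
  have hdis : ∀ x ∈ l.1, x ∉ m2.1 := by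
    intro x hx hx2
    obtain ⟨c, _, hc⟩ := List.mem_map.1 hx2
    have := hN x hx
    have hc' : c + N = x := hc
    omega
  refine ⟨⟨l.1 ++ m2.1, gw_append l.2 m2.2 hdis⟩, ?_⟩
  rw [← h1]
  exact (alg3 R a b (a + b) l m2 ⟨l.1 ++ m2.1, gw_append l.2 m2.2 hdis⟩ rfl).symm

/-- part (5) -/
theorem alg5 (R : Type) [CommRing R] (a b : ℕ) (x y : Alg R) (hx : x ∈ Adeg R a)
    (hy : y ∈ Adeg R b) : x * y ∈ Adeg R (a + b) := by
  unfold Adeg at hx
  induction hx using Submodule.span_induction with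
  | mem x hx =>
    obtain ⟨l, rfl⟩ := hx
    unfold Adeg at hy
    induction hy using Submodule.span_induction with
    | mem y hy =>
      obtain ⟨m, rfl⟩ := hy
      obtain ⟨n, hn⟩ := cls_mul R a b l m
      show cls R l * cls R m ∈ Adeg R (a + b)
      rw [hn]
      exact Submodule.subset_span ⟨n, rfl⟩
    | zero => rw [mul_zero]; exact zero_mem _
    | add y z _ _ hy hz => rw [mul_add]; exact add_mem hy hz
    | smul c y _ hy => rw [mul_smul_comm]; exact Submodule.smul_mem _ c hy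
  | zero => rw [zero_mul]; exact zero_mem _
  | add x z _ _ hx hz => rw [add_mul]; exact add_mem hx hz
  | smul c x _ hx => rw [smul_mul_assoc]; exact Submodule.smul_mem _ c hx

theorem iSup_mul_cls (R : Type) [CommRing R] (b : ℕ) (m : GW b) (x : Alg R)
    (hx : x ∈ ⨆ d, Adeg R d) : x * cls R m ∈ ⨆ d, Adeg R d := by
  induction hx using Submodule.iSup_induction' with
  | mem a x hx =>
    exact Submodule.mem_iSup_of_mem (a + b)
      (alg5 R a b x _ hx (Submodule.subset_span ⟨m, rfl⟩))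
  | zero => rw [zero_mul]; exact zero_mem _
  | add x y _ _ hx hy => rw [add_mul]; exact add_mem hx hy

/-- part (6) -/
theorem alg6 (R : Type) [CommRing R] (S : Submodule R (Alg R)) (hS : ∀ d, Adeg R d ≤ S) :
    S = ⊤ := by
  have hle : (⨆ d, Adeg R d) ≤ S := iSup_le hS
  rw [eq_top_iff]
  intro x _
  apply hle
  obtain ⟨p, rfl⟩ := Ideal.Quotient.mk_surjective x
  induction p using MvPolynomial.induction_on with
  | C c =>
    have hn : Gw 0 [] := ⟨rfl, by simp⟩
    have h1 : (Ideal.Quotient.mk (Ideal.span {f : MvPolynomial (Σ d : ℕ, GW d) R | ARel R f})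
        (MvPolynomial.C c)) = c • cls R (⟨[], hn⟩ : GW 0) := by
      rw [alg4 R]
      have h2 := smul_mk R c 1
      rw [mul_one, map_one] at h2
      exact h2.symm
    rw [h1]
    exact Submodule.mem_iSup_of_mem 0 (Submodule.smul_mem _ c (Submodule.subset_span ⟨_, rfl⟩))
  | add p q hp hq => rw [map_add]; exact add_mem (hp trivial) (hq trivial)
  | mul_X p i hp =>
    rw [map_mul]
    exact iSup_mul_cls R i.1 i.2 _ (hp trivial)

/-- part (1) -/
theorem alg1 (R : Type) [CommRing R] (A : Type) [CommRing A] [Algebra R A] (g : List ℕ → A)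
    (hg : ∀ d, WS d g) (h1 : g [] = 1)
    (hm : ∀ (a b d : ℕ) (l m : List ℕ), Gw a l → Gw b m → Gw d (l ++ m) →
      g (l ++ m) = g l * g m) :
    ∃ Ψ : Alg R →ₐ[R] A, ∀ (d : ℕ) (l : GW d), Ψ (cls R l) = g l.1 := by
  set φ : MvPolynomial (Σ d : ℕ, GW d) R →ₐ[R] A := MvPolynomial.aeval (fun j => g j.2.1) with hφ
  have hX : ∀ j : (Σ d : ℕ, GW d), φ (MvPolynomial.X j) = g j.2.1 := fun j =>
    MvPolynomial.aeval_X _ j
  have hker : ∀ f : MvPolynomial (Σ d : ℕ, GW d) R,
      f ∈ Ideal.span {f : MvPolynomial (Σ d : ℕ, GW d) R | ARel R f} → φ f = 0 := by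
    have hle : Ideal.span {f : MvPolynomial (Σ d : ℕ, GW d) R | ARel R f} ≤
        RingHom.ker φ.toRingHom := by
      rw [Ideal.span_le]
      intro f hf
      show φ f = 0
      have hf' : ARel R f := hf
      cases hf' with
      | lin d x hx =>
        have h2 := ws_rel (hg d) x hx
        rw [Finsupp.sum, map_sum]
        rw [Finsupp.sum] at h2
        rw [← h2]
        refine Finset.sum_congr rfl fun l _ => ?_
        rw [map_mul, hX, zsmul_eq_mul]
        congr 1
        have h3 : φ (MvPolynomial.C ((x l : ℤ) : R)) = algebraMap R A ((x l : ℤ) : R) :=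
          MvPolynomial.aeval_C _ _
        rw [h3, map_intCast]
      | mul a b d l m n hn =>
        have h2 : Gw d (l.1 ++ m.1) := hn ▸ n.2
        rw [map_sub, map_mul, hX, hX, hX]
        show g n.1 - g l.1 * g m.1 = 0
        rw [hn, hm a b d l.1 m.1 l.2 m.2 h2, sub_self]
      | one n =>
        have h2 : n.1 = [] := by
          have := n.2.1
          rw [Nat.mul_zero] at this
          exact List.length_eq_zero_iff.1 this
        rw [map_sub, map_one, hX]
        show g n.1 - 1 = 0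
        rw [h2, h1, sub_self]
    intro f hf
    exact hle hf
  refine ⟨Ideal.Quotient.liftₐ _ φ hker, ?_⟩
  intro d l
  show (Ideal.Quotient.liftₐ _ φ hker) (Ideal.Quotient.mk _ (MvPolynomial.X ⟨d, l⟩)) = g l.1
  have h2 := Ideal.Quotient.liftₐ_apply
    (Ideal.span {f : MvPolynomial (Σ d : ℕ, GW d) R | ARel R f}) φ hker
      (Ideal.Quotient.mk _ (MvPolynomial.X ⟨d, l⟩))
  rw [h2]
  show φ (MvPolynomial.X ⟨d, l⟩) = g l.1
  exact hX ⟨d, l⟩

theorem alg : T_ALG := by
  intro R _
  exact ⟨fun A _ _ g h1 h2 h3 => alg1 R A g h1 h2 h3, alg2 R, alg3 R, alg4 R, alg5 R, alg6 R⟩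

end Pool.Agent.H2.PK
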