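import Pool.Agent.H63.PK.Targets

/-!
# pwk_modules row AUT (helper2): endomorphisms of polynomial rings which are the identity to first
order and triangular
-/

set_option autoImplicit false

namespace Pool.Agent.H2.PK

open Pool.Agent.H59.LIN Pool.Agent.H13.LN Pool.Agent.H63.PK
open MvPolynomial

theorem aut : T_AUT := by
  intro R σ _ w θ h2 htri
  have h2' : ∀ j, θ (X j) - X j ∈ idealOfVars σ R ^ 2 := h2
  have hXmem : ∀ j : σ, (X j : MvPolynomial σ R) ∈ idealOfVars σ R := fun j =>
    Ideal.subset_span ⟨j, rfl⟩
  have hC : ∀ c : R, θ (C c) = C c := fun c => θ.commutes c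
  -- zeroth order
  have h0 : ∀ c : MvPolynomial σ R, θ c - c ∈ idealOfVars σ R := by
    intro c
    induction c using MvPolynomial.induction_on with
    | C a => rw [hC, sub_self]; exact zero_mem _
    | add p q hp hq =>
      have : θ (p + q) - (p + q) = (θ p - p) + (θ q - q) := by rw [map_add]; ring
      rw [this]; exact add_mem hp hq
    | mul_X p i hp =>
      have h1 : θ (X i) - X i ∈ idealOfVars σ R :=
        Ideal.pow_le_self (two_ne_zero) (h2' i)
      have : θ (p * X i) - p * X i = θ (X i) * (θ p - p) + p * (θ (X i) - X i) := by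
        rw [map_mul]; ring
      rw [this]
      exact add_mem (Ideal.mul_mem_left _ _ hp) (Ideal.mul_mem_left _ _ h1)
  -- products
  have hmul : ∀ (m n : ℕ) (f g : MvPolynomial σ R), f ∈ idealOfVars σ R ^ m →
      θ f - f ∈ idealOfVars σ R ^ (m + 1) → g ∈ idealOfVars σ R ^ n →
      θ g - g ∈ idealOfVars σ R ^ (n + 1) →
      f * g ∈ idealOfVars σ R ^ (m + n) ∧ θ (f * g) - f * g ∈ idealOfVars σ R ^ (m + n + 1) := by
    intro m n f g hf hf' hg hg'
    refine ⟨by rw [pow_add]; exact Ideal.mul_mem_mul hf hg, ?_⟩
    have hθg : θ g ∈ idealOfVars σ R ^ n := by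
      have : θ g = (θ g - g) + g := by ring
      rw [this]
      exact add_mem (Ideal.pow_le_pow_right (Nat.le_succ n) hg') hg
    have e1 : (θ f - f) * θ g ∈ idealOfVars σ R ^ (m + n + 1) := by
      have : m + n + 1 = (m + 1) + n := by ring
      rw [this, pow_add]; exact Ideal.mul_mem_mul hf' hθg
    have e2 : f * (θ g - g) ∈ idealOfVars σ R ^ (m + n + 1) := by
      have : m + n + 1 = m + (n + 1) := by ring
      rw [this, pow_add]; exact Ideal.mul_mem_mul hf hg'
    have : θ (f * g) - f * g = (θ f - f) * θ g + f * (θ g - g) := by rw [map_mul]; ring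
    rw [this]; exact add_mem e1 e2
  -- monomials
  have hmon : ∀ a : σ →₀ ℕ, (monomial a (1 : R)) ∈ idealOfVars σ R ^ (a.degree) ∧
      θ (monomial a 1) - monomial a 1 ∈ idealOfVars σ R ^ (a.degree + 1) := by
    intro a
    induction a using Finsupp.induction_linear with
    | zero =>
      refine ⟨by simp, ?_⟩
      have : (monomial (0 : σ →₀ ℕ) (1 : R)) = C 1 := rfl
      rw [this, hC, sub_self]; exact zero_mem _
    | add a b ha hb =>
      have h1 : (monomial (a + b) (1 : R)) = monomial a 1 * monomial b 1 := by
        rw [monomial_mul, one_mul]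
      rw [h1, map_add Finsupp.degree a b]
      exact hmul _ _ _ _ ha.1 ha.2 hb.1 hb.2
    | single i k =>
      have h1 : (monomial (Finsupp.single i k) (1 : R)) = X i ^ k := by
        rw [X_pow_eq_monomial]
      have hd : (Finsupp.single i k : σ →₀ ℕ).degree = k := Finsupp.degree_single i k
      rw [h1, hd]
      induction k with
      | zero =>
        refine ⟨by simp, ?_⟩
        rw [pow_zero, map_one, sub_self]; exact zero_mem _
      | succ k ih =>
        have h3 := ih (by rw [X_pow_eq_monomial]) (Finsupp.degree_single i k)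
        have h4 := hmul k 1 (X i ^ k) (X i) h3.1 h3.2 (by rw [pow_one]; exact hXmem i) (h2' i)
        rw [← pow_succ] at h4
        exact h4
  -- all elements
  have hall : ∀ (m : ℕ) (f : MvPolynomial σ R), f ∈ idealOfVars σ R ^ m →
      θ f - f ∈ idealOfVars σ R ^ (m + 1) := by
    intro m f hf
    have hf' := hf
    rw [pow_idealOfVars_eq_span, Ideal.span] at hf'
    have key : f ∈ idealOfVars σ R ^ m ∧ θ f - f ∈ idealOfVars σ R ^ (m + 1) := by
      induction hf' using Submodule.span_induction with
      | mem x hx =>
        obtain ⟨a, ha, rfl⟩ := hx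
        have ha' : a.degree = m := ha
        have := hmon a
        rw [ha'] at this
        exact this
      | zero => rw [map_zero, sub_self]; exact ⟨zero_mem _, zero_mem _⟩
      | add x y _ _ hx hy =>
        have hx' := hx (by
          rw [pow_idealOfVars_eq_span, Ideal.span]; assumption)
        have hy' := hy (by
          rw [pow_idealOfVars_eq_span, Ideal.span]; assumption)
        refine ⟨add_mem hx'.1 hy'.1, ?_⟩
        have : θ (x + y) - (x + y) = (θ x - x) + (θ y - y) := by rw [map_add]; ring
        rw [this]; exact add_mem hx'.2 hy'.2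
      | smul c x _ hx =>
        have hx' := hx (by
          rw [pow_idealOfVars_eq_span, Ideal.span]; assumption)
        refine ⟨Ideal.mul_mem_left _ _ hx'.1, ?_⟩
        have : θ (c • x) - c • x = θ c * (θ x - x) + (θ c - c) * x := by
          rw [smul_eq_mul, map_mul]; ring
        rw [this]
        refine add_mem (Ideal.mul_mem_left _ _ hx'.2) ?_
        rw [pow_succ']
        exact Ideal.mul_mem_mul (h0 c) hx'.1
    exact key.2
  constructor
  · rw [injective_iff_map_eq_zero]
    intro f hf
    have hmem : ∀ m, f ∈ idealOfVars σ R ^ m := by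
      intro m
      induction m with
      | zero => simp
      | succ m ih =>
        have h1 := hall m f ih
        rw [hf, zero_sub] at h1
        exact (neg_mem_iff).1 h1
    ext a
    rw [coeff_zero]
    exact (mem_pow_idealOfVars_iff' (a.degree + 1) f).1 (hmem _) a (Nat.lt_succ_self _)
  · have hX : ∀ (n : ℕ) (j : σ), w j = n → X j ∈ θ.range := by
      intro n
      induction n using Nat.strong_induction_on with
      | _ n ih =>
        intro j hj
        have hle : Algebra.adjoin R ((X : σ → MvPolynomial σ R) '' {i | w i < w j}) ≤ θ.range := by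
          rw [Algebra.adjoin_le_iff]
          rintro _ ⟨i, hi, rfl⟩
          exact ih (w i) (by rw [← hj]; exact hi) i rfl
        have h1 : θ (X j) - X j ∈ θ.range := hle (htri j)
        have h3 : (X j : MvPolynomial σ R) = θ (X j) - (θ (X j) - X j) := by ring
        rw [h3]
        exact sub_mem ⟨X j, rfl⟩ h1
    have htop : θ.range = ⊤ := by
      rw [eq_top_iff, ← adjoin_range_X, Algebra.adjoin_le_iff]
      rintro _ ⟨j, rfl⟩
      exact hX (w j) j rfl
    intro p
    have : p ∈ θ.range := by rw [htop]; exact Algebra.mem_top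
    exact this

end Pool.Agent.H2.PK
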